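import Pool.Agent.MMI.Adapt
import Pool.Agent.BVM.Ultra

/-!
# Martin's Maximum for posets of size aleph_1 is consistent relative to ZFC

There is a complete Boolean algebra `𝔹` of cardinality at most `ℶ₄`, the regular open algebra of the
following forcing: a condition is a (legal) program for a countable support iteration, of length
less than `(2 ^ ℵ₀)⁺`, together with a condition of this iteration; the iterands are proper posets on
`ω₁` and, for posets on `ω₁` which are not proper, the `σ`-closed killing forcing by countable cliques,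
which destroys their stationary set preservation.  In the `𝔹`-valued universe MM(aleph_1) holds.
-/

set_option autoImplicit false

namespace Pool.Agent.Results.MP_ed6b22_lc.MMAlephOne

open Pool.Agent.BVM Pool.Agent.MMA1 Cardinal

/-- There is a complete Boolean algebra `𝔹`, of cardinality at most `2 ^ 2 ^ 2 ^ 2 ^ ℵ₀`, which has an
ultrafilter and such that every quotient of the Boolean-valued universe over `𝔹` by an ultrafilter is a
model of ZFC in which MM(aleph_1) holds. -/
theorem result : ∃ (𝔹 : Type) (_ : CompleteBooleanAlgebra 𝔹),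
    #𝔹 ≤ 2 ^ (2 ^ (2 ^ (2 ^ ℵ₀ : Cardinal.{0}) : Cardinal.{0}) : Cardinal.{0}) ∧
    Nonempty (UF 𝔹) ∧ ∀ U : UF 𝔹, IsModelZFC U.E ∧ MM U.E := by
  have hs : ∀ η < K0, Leg (fun _ => (true, fun _ _ => ∅)) η := fun _ _ => Or.inl rfl
  have h0 : Nontrivial BS :=
    ⟨⟨⊤, ⊥, ne_bot_iff.2 ⟨⟨(K0, fun _ => (true, fun _ _ => ∅), Cd.triv), hs⟩, Fo_top _⟩⟩⟩
  exact ⟨BS, inferInstance, card_BS, exists_UF, main_BS⟩

end Pool.Agent.Results.MP_ed6b22_lc.MMAlephOne
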